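import Pool.Agent.LibCC67.Soft

/-!
One step of the chord iteration for a softmax comparator network.
-/

namespace Pool.Agent.LibCC67

open Pool.Agent.LibCC Pool.Agent.LibCCS Finset

variable {n m : ℕ}

/-- Scalar estimate at one gate: `h` new error, `dg` old error, `c` slope, `E` output error. -/
theorem gate_est {c h dg E μ B : ℝ} (hc : |c| ≤ 1) (hμ : 0 ≤ μ)
    (hE : |E - c * h| ≤ 1 / 5 * (1 - c ^ 2) * |dg| + μ) (hhB : |h| ≤ B) (hdB : |dg| ≤ B) :
    E ^ 2 - h ^ 2 ≤ -(1 / 2) * ((1 - c ^ 2) * h ^ 2) + 3 / 25 * ((1 - c ^ 2) * dg ^ 2) +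
      μ * (3 * B + μ) := by
  have hB : 0 ≤ B := le_trans (abs_nonneg _) hhB
  have hc2 : c ^ 2 ≤ 1 := by
    rw [← sq_abs]
    nlinarith [abs_nonneg c]
  set w := 1 - c ^ 2 with hw
  have hw0 : 0 ≤ w := by linarith
  have hw1 : w ≤ 1 := by nlinarith [sq_nonneg c]
  set R := 1 / 5 * w * |dg| with hR
  have hR0 : 0 ≤ R := by positivity
  have hRB : R ≤ 1 / 5 * B := by
    rw [hR]
    have : w * |dg| ≤ 1 * B := mul_le_mul hw1 hdB (abs_nonneg _) zero_le_one
    nlinarith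
  set z := E - c * h with hz
  have hEz : E = c * h + z := by rw [hz]; ring
  have hz2 : z ^ 2 ≤ (R + μ) ^ 2 := by
    rw [← sq_abs z]
    exact pow_le_pow_left₀ (abs_nonneg _) hE 2
  have hcz : c * h * z ≤ |h| * (R + μ) := by
    calc c * h * z ≤ |c * h * z| := le_abs_self _
      _ = |c| * |h| * |z| := by rw [abs_mul, abs_mul]
      _ ≤ 1 * |h| * (R + μ) := by
        apply mul_le_mul _ hE (abs_nonneg _) (by positivity)
        exact mul_le_mul_of_nonneg_right hc (abs_nonneg _)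
      _ = _ := by ring
  have h1 : E ^ 2 - h ^ 2 = -(w * h ^ 2) + 2 * (c * h * z) + z ^ 2 := by
    rw [hEz, hw]; ring
  have h2 : 2 * (|h| * R) ≤ 1 / 2 * (w * h ^ 2) + 2 / 25 * (w * dg ^ 2) := by
    rw [hR, ← sq_abs h, ← sq_abs dg]
    nlinarith [mul_nonneg hw0 (sq_nonneg (|h| - 2 / 5 * |dg|))]
  have h3 : R ^ 2 ≤ 1 / 25 * (w * dg ^ 2) := by
    rw [hR, ← sq_abs dg]
    have : w ^ 2 * |dg| ^ 2 ≤ w * |dg| ^ 2 := by
      apply mul_le_mul_of_nonneg_right _ (by positivity)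
      nlinarith
    nlinarith
  have h4 : |h| * μ ≤ B * μ := mul_le_mul_of_nonneg_right hhB hμ
  have h5 : R * μ ≤ 1 / 5 * B * μ := mul_le_mul_of_nonneg_right hRB hμ
  have hBμ : 0 ≤ B * μ := mul_nonneg hB hμ
  rw [h1]
  nlinarith

/-- Chord step: weighted contraction and control of all arcs. `x` is the new state, `y` the exact
state, `d g` the error of the previous iterate. -/
theorem chord {C : CompCircuit n m} {κ : Arc n m → ℝ} {Q Q' : Fin m → ℝ} {x y : Arc n m → ℝ}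
    (hx : IsX C (fun _ => false) κ Q x) (hy : IsX C (fun _ => false) κ Q' y)
    {c d : Fin m → ℝ} {μ B : ℝ} (hμ : 0 ≤ μ) (hc : ∀ g, |c g| ≤ 1)
    (hE : ∀ g, |(Q g - Q' g) - c g * (Dx C x g - Dx C y g)| ≤
      1 / 5 * (1 - c g ^ 2) * |d g| + μ)
    (hB : ∀ g, |Dx C x g - Dx C y g| ≤ B) (hd : ∀ g, |d g| ≤ B) :
    (∑ g, (1 - c g ^ 2) * (Dx C x g - Dx C y g) ^ 2 ≤
      6 / 25 * ∑ g, (1 - c g ^ 2) * d g ^ 2 + 2 * m * (μ * (3 * B + μ))) ∧
    ∀ a, (x a - y a) ^ 2 ≤ 3 / 50 * ∑ g, (1 - c g ^ 2) * d g ^ 2 +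
      m * (μ * (3 * B + μ)) / 2 := by
  classical
  set e : Arc n m → ℝ := fun a => x a - y a with he
  have hS : ∀ g, Sx C e g = Sx C x g - Sx C y g := fun g => by simp only [Sx, he]; ring
  have hD : ∀ g, Dx C e g = Dx C x g - Dx C y g := fun g => by simp only [Dx, he]; ring
  have hout : ∀ a : Fin m × Bool, e (Sum.inr a) =
      (Sx C e a.1 + sg a.2 * (Q a.1 - Q' a.1)) / 2 := by
    intro a
    simp only [he]
    rw [hx.opn a rfl, hy.opn a rfl]
    have := hS a.1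
    simp only [he] at this
    rw [this]
    ring
  have hsrc : ∑ i : Fin n, e (Sum.inl i) ^ 2 = 0 := by
    apply sum_eq_zero
    intro i _
    simp only [he]
    rw [hx.src, hy.src]
    ring
  have hw : ∀ g, 0 ≤ 1 - c g ^ 2 := by
    intro g
    have h1 := hc g
    rw [abs_le] at h1
    nlinarith
  have hg : ∀ g, (Q g - Q' g) ^ 2 - Dx C e g ^ 2 ≤
      -(1 / 2) * ((1 - c g ^ 2) * Dx C e g ^ 2) + 3 / 25 * ((1 - c g ^ 2) * d g ^ 2) +
        μ * (3 * B + μ) := by
    intro g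
    apply gate_est (hc g) hμ _ _ (hd g)
    · rw [hD]; exact hE g
    · rw [hD]; exact hB g
  rcases Nat.eq_zero_or_pos m with hm0 | hm0
  · subst hm0
    refine ⟨by simp, ?_⟩
    intro a
    rcases a with i | ⟨h, _⟩
    · have : x (Sum.inl i) - y (Sum.inl i) = 0 := by rw [hx.src, hy.src]; ring
      rw [this]
      simp
    · exact h.elim0
  have hB0 : 0 ≤ B := le_trans (abs_nonneg _) (hB ⟨0, hm0⟩)
  have hnoise : 0 ≤ μ * (3 * B + μ) := by positivity
  constructor
  · have h1 := energy (e := e) (E := fun g => Q g - Q' g) hout (dn_univ C)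
    have h2 : 0 ≤ ∑ a ∈ Av C univ, e a ^ 2 := sum_nonneg (fun _ _ => sq_nonneg _)
    rw [h1, hsrc, zero_add] at h2
    have h3 : ∑ g : Fin m, ((Q g - Q' g) ^ 2 - Dx C e g ^ 2) / 2 ≤
        ∑ g : Fin m, (-(1 / 4) * ((1 - c g ^ 2) * Dx C e g ^ 2) +
          3 / 50 * ((1 - c g ^ 2) * d g ^ 2) + μ * (3 * B + μ) / 2) := by
      apply sum_le_sum
      intro g _
      have := hg g
      linarith
    rw [sum_add_distrib, sum_add_distrib, ← mul_sum, ← mul_sum, sum_const, card_univ,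
      Fintype.card_fin, nsmul_eq_mul] at h3
    have h4 : ∑ g, (1 - c g ^ 2) * (Dx C x g - Dx C y g) ^ 2 =
        ∑ g, (1 - c g ^ 2) * Dx C e g ^ 2 := by
      apply sum_congr rfl
      intro g _
      rw [hD]
    rw [h4]
    linarith
  · intro a
    obtain ⟨Gs, hDn, ha⟩ := exists_dn C a
    have h1 := energy (e := e) (E := fun g => Q g - Q' g) hout hDn
    rw [hsrc, zero_add] at h1
    have h2 : e a ^ 2 ≤ ∑ a ∈ Av C Gs, e a ^ 2 :=
      single_le_sum (f := fun a => e a ^ 2) (fun _ _ => sq_nonneg _) ha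
    have h3 : ∑ g ∈ Gs, ((Q g - Q' g) ^ 2 - Dx C e g ^ 2) / 2 ≤
        ∑ g ∈ Gs, (3 / 50 * ((1 - c g ^ 2) * d g ^ 2) + μ * (3 * B + μ) / 2) := by
      apply sum_le_sum
      intro g _
      have h4 := hg g
      have h5 : 0 ≤ (1 - c g ^ 2) * Dx C e g ^ 2 := mul_nonneg (hw g) (sq_nonneg _)
      linarith
    have h4 : ∑ g ∈ Gs, (3 / 50 * ((1 - c g ^ 2) * d g ^ 2) + μ * (3 * B + μ) / 2) ≤
        ∑ g : Fin m, (3 / 50 * ((1 - c g ^ 2) * d g ^ 2) + μ * (3 * B + μ) / 2) := by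
      apply sum_le_sum_of_subset_of_nonneg (subset_univ _)
      intro g _ _
      have h5 : 0 ≤ (1 - c g ^ 2) * d g ^ 2 := mul_nonneg (hw g) (sq_nonneg _)
      linarith
    have h6 : ∑ g : Fin m, (3 / 50 * ((1 - c g ^ 2) * d g ^ 2) + μ * (3 * B + μ) / 2) =
        3 / 50 * ∑ g, (1 - c g ^ 2) * d g ^ 2 + m * (μ * (3 * B + μ) / 2) := by
      rw [sum_add_distrib, ← mul_sum, sum_const, card_univ, Fintype.card_fin, nsmul_eq_mul]
    rw [h6] at h4
    have h5 : (x a - y a) ^ 2 = e a ^ 2 := rfl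
    rw [h5]
    linarith

/-- Clipping to the interval of radius `r` around `D`. -/
noncomputable def clip (D r y : ℝ) : ℝ := max (D - r) (min (D + r) y)

theorem clip_mem {D r : ℝ} (hr : 0 ≤ r) (y : ℝ) : |clip D r y - D| ≤ r := by
  rw [abs_le, clip]
  constructor
  · have := le_max_left (D - r) (min (D + r) y)
    linarith
  · have h1 : max (D - r) (min (D + r) y) ≤ D + r :=
      max_le (by linarith) (min_le_left _ _)
    linarith

theorem clip_lip (D r y y' : ℝ) : |clip D r y - clip D r y'| ≤ |y - y'| := by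
  rw [clip, clip]
  have h1 := abs_max_sub_max_le_max (D - r) (min (D + r) y) (D - r) (min (D + r) y')
  have h2 := abs_min_sub_min_le_max (D + r) y (D + r) y'
  have e1 : max |D - r - (D - r)| |min (D + r) y - min (D + r) y'| =
      |min (D + r) y - min (D + r) y'| := by
    rw [sub_self, abs_zero]
    exact max_eq_right (abs_nonneg _)
  have e2 : max |D + r - (D + r)| |y - y'| = |y - y'| := by
    rw [sub_self, abs_zero]
    exact max_eq_right (abs_nonneg _)
  rw [e1] at h1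
  rw [e2] at h2
  exact h1.trans h2

theorem clip_self {D r y : ℝ} (h : |y - D| ≤ r) : clip D r y = y := by
  rw [abs_le] at h
  rw [clip, min_eq_right (by linarith), max_eq_right (by linarith)]

/-- The hypothesis `hE` of `chord` at one gate, when the new output difference is
`σ * Dx + b` with `σ`, `b` close to the slope and the offset computed from the previous
iterate `D0` clipped to the window around `Db`. -/
theorem chord_gate {p Db Ds D0 Dn σ b c0 ν B : ℝ} (hp : 0 < p) (hν : 0 ≤ ν)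
    (hDs : |Ds - Db| ≤ 3 / 10 * p) (hσ : |σ - T p Db| ≤ ν)
    (hb : |b - (H p (clip Db (3 / 10 * p) D0) - T p Db * clip Db (3 / 10 * p) D0 - c0)| ≤ ν)
    (hDn : |Dn| ≤ B) :
    |((σ * Dn + b) - (H p Ds - c0)) - T p Db * (Dn - Ds)| ≤
      1 / 5 * (1 - T p Db ^ 2) * |D0 - Ds| + ν * (B + 1) := by
  set z := clip Db (3 / 10 * p) D0 with hz
  have h1 := H_window hp hDs (clip_mem (by positivity : (0 : ℝ) ≤ 3 / 10 * p) D0)
  rw [← hz] at h1
  have h2 : |z - Ds| ≤ |D0 - Ds| := by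
    have := clip_lip Db (3 / 10 * p) D0 Ds
    rwa [clip_self hDs, ← hz] at this
  have hw : 0 ≤ 1 - T p Db ^ 2 := by
    have := abs_T_le p Db
    rw [abs_le] at this
    nlinarith
  have h3 : 1 / 5 * (1 - T p Db ^ 2) * |z - Ds| ≤ 1 / 5 * (1 - T p Db ^ 2) * |D0 - Ds| :=
    mul_le_mul_of_nonneg_left h2 (by positivity)
  have h4 : ((σ * Dn + b) - (H p Ds - c0)) - T p Db * (Dn - Ds) =
      ((H p z - T p Db * z) - (H p Ds - T p Db * Ds)) + ((σ - T p Db) * Dn +
        (b - (H p z - T p Db * z - c0))) := by ring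
  rw [h4]
  have h5 : |(σ - T p Db) * Dn| ≤ ν * B := by
    rw [abs_mul]
    exact mul_le_mul hσ hDn (abs_nonneg _) hν
  refine le_trans (abs_add_le _ _) ?_
  have h6 := abs_add_le ((σ - T p Db) * Dn) (b - (H p z - T p Db * z - c0))
  linarith

end Pool.Agent.LibCC67
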