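import Pool.Agent.LibCCS.Defs

/-!
Drift lemma: the difference of the states of a softmax comparator network at two temperatures.
-/

namespace Pool.Agent.LibCC67

open Pool.Agent.LibCC Pool.Agent.LibCCS Finset

variable {n m : ℕ}

/-- The smooth absolute value `d * 2 log (2 cosh (h / (2 d)))`, in the form
`|h| + 2 d log (1 + exp (-|h| / d))`. -/
noncomputable def H (d h : ℝ) : ℝ := |h| + 2 * d * Real.log (1 + Real.exp (-(|h| / d)))

theorem H_ge {d : ℝ} (hd : 0 ≤ d) (h : ℝ) : |h| ≤ H d h := by
  have h1 : 0 ≤ Real.log (1 + Real.exp (-(|h| / d))) :=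
    Real.log_nonneg (by have := Real.exp_pos (-(|h| / d)); linarith)
  have h2 : 0 ≤ 2 * d * Real.log (1 + Real.exp (-(|h| / d))) := by positivity
  rw [H]
  linarith

theorem log_one_add_exp_le (t : ℝ) : Real.log (1 + Real.exp (-t)) ≤ Real.exp (-t) := by
  have := Real.log_le_sub_one_of_pos (show 0 < 1 + Real.exp (-t) by positivity)
  linarith

theorem log_one_add_exp_le_two {t : ℝ} (ht : 0 ≤ t) : Real.log (1 + Real.exp (-t)) ≤ 7 / 10 := by
  have h1 : Real.exp (-t) ≤ 1 := Real.exp_le_one_iff.mpr (by linarith)
  have h2 : Real.log (1 + Real.exp (-t)) ≤ Real.log 2 :=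
    Real.log_le_log (by positivity) (by linarith)
  have h3 := Real.log_two_lt_d9
  linarith

theorem H_le {d : ℝ} (hd : 0 < d) (h : ℝ) : H d h ≤ |h| + 7 / 5 * d := by
  have h1 := log_one_add_exp_le_two (t := |h| / d) (by positivity)
  rw [H]
  nlinarith

theorem mul_exp_neg_le (t : ℝ) : t * Real.exp (-t) ≤ 1 / 2 := by
  have h1 : 2 * t ≤ Real.exp t := by
    rcases le_or_gt t 0 with h | h
    · have := Real.exp_pos t
      linarith
    · have := Real.quadratic_le_exp_of_nonneg h.le
      nlinarith [sq_nonneg (t - 1)]
  have h2 : Real.exp t * Real.exp (-t) = 1 := by rw [← Real.exp_add]; simp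
  have h3 : 2 * t * Real.exp (-t) ≤ Real.exp t * Real.exp (-t) :=
    mul_le_mul_of_nonneg_right h1 (Real.exp_pos _).le
  linarith

theorem H_sq_le {d : ℝ} (hd : 0 < d) (h : ℝ) : H d h ^ 2 ≤ h ^ 2 + 4 * d ^ 2 := by
  set t := |h| / d with ht
  have ht0 : 0 ≤ t := by positivity
  have h1 : |h| = d * t := by rw [ht]; field_simp
  set L := Real.log (1 + Real.exp (-t)) with hL
  have hL0 : 0 ≤ L := Real.log_nonneg (by have := Real.exp_pos (-t); linarith)
  have hL1 : L ≤ 7 / 10 := log_one_add_exp_le_two ht0
  have hL2 : L ≤ Real.exp (-t) := log_one_add_exp_le t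
  have h2 : t * L ≤ 1 / 2 :=
    le_trans (mul_le_mul_of_nonneg_left hL2 ht0) (mul_exp_neg_le t)
  have h3 : L * L ≤ 1 / 2 := by nlinarith
  have h4 : H d h = d * t + 2 * d * L := by rw [H, ← ht, h1]
  have h5 : h ^ 2 = (d * t) ^ 2 := by rw [← h1, sq_abs]
  rw [h4, h5]
  have h6 : (d * t + 2 * d * L) ^ 2 = (d * t) ^ 2 + 4 * d ^ 2 * (t * L + L * L) := by ring
  rw [h6]
  have h7 : 4 * d ^ 2 * (t * L + L * L) ≤ 4 * d ^ 2 * 1 :=
    mul_le_mul_of_nonneg_left (by linarith) (by positivity)
  linarith

/-! ### The barrier -/

/-- Concave quadratic barrier. -/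
noncomputable def Fb (α lam d : ℝ) (N k : ℕ) : ℝ := k * α + lam * d / 2 * (k * (N - k))

theorem Fb_nonneg {α lam d : ℝ} {N k : ℕ} (hα : 0 ≤ α) (hlam : 0 ≤ lam) (hd : 0 ≤ d)
    (hk : k ≤ N) : 0 ≤ Fb α lam d N k := by
  have : (0 : ℝ) ≤ (N : ℝ) - k := by
    have : (k : ℝ) ≤ N := by exact_mod_cast hk
    linarith
  rw [Fb]
  positivity

theorem Fb_mid (α lam d : ℝ) (N k : ℕ) :
    Fb α lam d N k + Fb α lam d N (k + 2) = 2 * Fb α lam d N (k + 1) - lam * d := by
  simp only [Fb]
  push_cast
  ring

/-- The combinatorial step of the maximum principle. -/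
theorem step_sum {A : Type*} [DecidableEq A] {f : A → ℝ} {S : Finset A} {α lam d c : ℝ} {N : ℕ}
    (hd : 0 < d) {a b : A} (hab : a ≠ b) (ha : a ∈ S) (hb : b ∈ S)
    (hS : ∀ B ⊆ S, B.card ≤ N → ∑ x ∈ B, f x ≤ Fb α lam d N B.card + c)
    {R : Finset A} (hR : R ⊆ S) (haR : a ∉ R) (hbR : b ∉ R) (hRN : R.card + 1 < N)
    {w : ℝ} (hw : w ≤ (f a + f b) / 2 + H d (f a - f b) / 2) :
    ∑ x ∈ R, f x + w ≤ Fb α lam d N (R.card + 1) + c + 5 * d * Real.exp (-lam) := by
  have key : ∀ p q : A, p ≠ q → p ∈ S → q ∈ S → p ∉ R → q ∉ R → f q ≤ f p →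
      w ≤ (f p + f q) / 2 + H d (f p - f q) / 2 →
      ∑ x ∈ R, f x + w ≤ Fb α lam d N (R.card + 1) + c + 5 * d * Real.exp (-lam) := by
    intro p q hpq hp hq hpR hqR hle hw
    set h := f p - f q with hh
    have hh0 : 0 ≤ h := by linarith
    have hab' : |h| = h := abs_of_nonneg hh0
    have e1 := hS (insert p R) (by
      intro x hx
      rw [mem_insert] at hx
      rcases hx with rfl | hx
      · exact hp
      · exact hR hx) (by rw [card_insert_of_notMem hpR]; omega)
    rw [sum_insert hpR, card_insert_of_notMem hpR] at e1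
    rcases le_or_gt h ((lam - 7 / 5) * d) with h1 | h1
    · have e0 := hS R hR (by omega)
      have hq' : q ∉ insert p R := by
        rw [mem_insert]
        rintro (h | h)
        · exact hpq h.symm
        · exact hqR h
      have e2 := hS (insert q (insert p R)) (by
        intro x hx
        rw [mem_insert, mem_insert] at hx
        rcases hx with rfl | rfl | hx
        · exact hq
        · exact hp
        · exact hR hx) (by rw [card_insert_of_notMem hq', card_insert_of_notMem hpR]; omega)
      rw [sum_insert hq', card_insert_of_notMem hq', sum_insert hpR,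
        card_insert_of_notMem hpR] at e2
      have e3 := Fb_mid α lam d N R.card
      have e4 := H_le hd h
      have e5 : 0 ≤ 5 * d * Real.exp (-lam) := by positivity
      rw [hab'] at e4
      have e6 : Fb α lam d N (R.card + 1 + 1) = Fb α lam d N (R.card + 2) := rfl
      rw [e6] at e2
      nlinarith
    · have e4 : H d h = h + 2 * d * Real.log (1 + Real.exp (-(h / d))) := by
        rw [H, hab']
      have e5 := log_one_add_exp_le (h / d)
      have e6 : Real.exp (-(h / d)) ≤ 5 * Real.exp (-lam) := by
        have h2 : lam - 7 / 5 ≤ h / d := by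
          rw [le_div_iff₀ hd]
          linarith
        have h3 : Real.exp (-(h / d)) ≤ Real.exp (7 / 5 + -lam) :=
          Real.exp_le_exp.mpr (by linarith)
        rw [Real.exp_add] at h3
        have h4 : Real.exp (7 / 5) ≤ 5 := by
          have h5 : Real.exp (7 / 5) = Real.exp 1 * Real.exp (2 / 5) := by
            rw [← Real.exp_add]; norm_num
          have h6 := Real.exp_one_lt_d9
          have h7 : Real.exp (2 / 5) ≤ 1.67 := by
            have := Real.exp_bound_div_one_sub_of_interval (x := 2 / 5) (by norm_num) (by norm_num)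
            refine le_trans this ?_
            norm_num
          rw [h5]
          have h8 := Real.exp_pos (2 / 5)
          nlinarith
        have h5 := Real.exp_pos (-lam)
        nlinarith
      have e7 : w ≤ f p + d * (5 * Real.exp (-lam)) := by
        have : H d h / 2 = h / 2 + d * Real.log (1 + Real.exp (-(h / d))) := by
          rw [e4]; ring
        rw [this] at hw
        have h8 : d * Real.log (1 + Real.exp (-(h / d))) ≤ d * (5 * Real.exp (-lam)) :=
          mul_le_mul_of_nonneg_left (le_trans e5 e6) hd.le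
        have : (f p + f q) / 2 + h / 2 = f p := by rw [hh]; ring
        linarith
      linarith
  rcases le_total (f b) (f a) with h | h
  · exact key a b hab ha hb haR hbR h hw
  · refine key b a hab.symm hb ha hbR haR h ?_
    have e1 : f b - f a = -(f a - f b) := by ring
    have e2 : H d (-(f a - f b)) = H d (f a - f b) := by simp only [H, abs_neg]
    rw [e1, e2]
    linarith

/-! ### Cuts -/

/-- Arcs available after the gates of `Gs`: produced by `Gs` or sources, and not read by `Gs`. -/
def Av (C : CompCircuit n m) (Gs : Finset (Fin m)) : Finset (Arc n m) :=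
  by classical exact univ.filter (fun a => (∀ h c, a = Sum.inr (h, c) → h ∈ Gs) ∧
    ∀ p : Fin m × Bool, p.1 ∈ Gs → C.inp p ≠ a)

theorem mem_Av {C : CompCircuit n m} {Gs : Finset (Fin m)} {a : Arc n m} :
    a ∈ Av C Gs ↔ (∀ h c, a = Sum.inr (h, c) → h ∈ Gs) ∧
      ∀ p : Fin m × Bool, p.1 ∈ Gs → C.inp p ≠ a := by
  classical
  simp [Av]

/-- Predecessor-closed sets of gates. -/
def Dn (C : CompCircuit n m) (Gs : Finset (Fin m)) : Prop :=
  ∀ g ∈ Gs, ∀ b h c, C.inp (g, b) = Sum.inr (h, c) → h ∈ Gs

/-- Induction over predecessor-closed sets, one gate at a time. -/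
theorem Dn.induction {C : CompCircuit n m} {P : Finset (Fin m) → Prop} (h0 : P ∅)
    (hs : ∀ (Gs : Finset (Fin m)) (g : Fin m), Dn C Gs → g ∉ Gs →
      (∀ b, C.inp (g, b) ∈ Av C Gs) → P Gs →
      (∀ c, (Sum.inr (g, c) : Arc n m) ∉ Av C Gs) → P (insert g Gs)) :
    ∀ Gs, Dn C Gs → P Gs := by
  classical
  obtain ⟨ord, hord⟩ := C.acyclic
  intro Gs
  induction Gs using Finset.strongInduction with
  | H Gs ih =>
    intro hGs
    rcases Gs.eq_empty_or_nonempty with rfl | hne
    · exact h0
    · obtain ⟨g, hg, hmax⟩ := Gs.exists_max_image ord hne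
      have hD : Dn C (Gs.erase g) := by
        intro g' hg' b h c hb
        rw [mem_erase] at hg' ⊢
        refine ⟨?_, hGs g' hg'.2 b h c hb⟩
        rintro rfl
        have h1 := hord g' b h c hb
        have h2 := hmax g' hg'.2
        omega
      have h1 := hs (Gs.erase g) g hD (notMem_erase g Gs) (by
        intro b
        rw [mem_Av]
        constructor
        · intro h c hb
          rw [mem_erase]
          refine ⟨?_, hGs g hg b h c hb⟩
          rintro rfl
          have := hord h b h c hb
          omega
        · intro p hp hpe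
          have := C.inj hpe
          rw [this] at hp
          exact notMem_erase g Gs hp) (ih _ (erase_ssubset hg) hD) (by
        intro c hc
        rw [mem_Av] at hc
        exact notMem_erase g Gs (hc.1 g c rfl))
      rwa [insert_erase hg] at h1

theorem Av_insert {C : CompCircuit n m} {Gs : Finset (Fin m)} {g : Fin m} (hg : g ∉ Gs)
    (hD : Dn C Gs) (hin : ∀ b, C.inp (g, b) ∈ Av C Gs) [DecidableEq (Arc n m)] :
    Av C (insert g Gs) = insert (Sum.inr (g, true)) (insert (Sum.inr (g, false))
      (((Av C Gs).erase (C.inp (g, false))).erase (C.inp (g, true)))) := by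
  classical
  have hself : ∀ (p : Fin m × Bool) (c : Bool), p.1 ∈ insert g Gs →
      C.inp p ≠ Sum.inr (g, c) := by
    rintro ⟨p1, p2⟩ c hp hpe
    rw [mem_insert] at hp
    rcases hp with hp | hp
    · simp only at hp
      subst hp
      have := hin p2
      rw [mem_Av] at this
      exact hg (this.1 _ _ hpe)
    · exact hg (hD p1 hp p2 g c hpe)
  ext a
  simp only [mem_insert, mem_erase, mem_Av]
  constructor
  · rintro ⟨h1, h2⟩
    by_cases ha : ∃ c, a = Sum.inr (g, c)
    · obtain ⟨c, rfl⟩ := ha
      cases c
      · exact Or.inr (Or.inl rfl)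
      · exact Or.inl rfl
    · push Not at ha
      refine Or.inr (Or.inr ⟨fun h => h2 (g, true) (Or.inl rfl) h.symm,
        fun h => h2 (g, false) (Or.inl rfl) h.symm, ?_, ?_⟩)
      · intro h c hc
        rcases h1 h c hc with h3 | h3
        · exact absurd (h3 ▸ hc) (ha c)
        · exact h3
      · intro p hp
        exact h2 p (Or.inr hp)
  · rintro (rfl | rfl | ⟨h1, h2, h3, h4⟩)
    · refine ⟨fun h c hc => Or.inl (by simpa using hc.symm : _ ∧ _).1, ?_⟩
      intro p hp
      exact hself p true (by rw [mem_insert]; exact hp)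
    · refine ⟨fun h c hc => Or.inl (by simpa using hc.symm : _ ∧ _).1, ?_⟩
      intro p hp
      exact hself p false (by rw [mem_insert]; exact hp)
    · refine ⟨fun h c hc => Or.inr (h3 h c hc), ?_⟩
      rintro ⟨p1, p2⟩ hp
      rcases hp with hp | hp
      · simp only at hp
        subst hp
        cases p2
        · exact fun h => h2 h.symm
        · exact fun h => h1 h.symm
      · exact h4 _ hp

theorem sum_Av_insert {C : CompCircuit n m} {Gs : Finset (Fin m)} {g : Fin m} (hg : g ∉ Gs)
    (hD : Dn C Gs) (hin : ∀ b, C.inp (g, b) ∈ Av C Gs)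
    (hout : ∀ c, (Sum.inr (g, c) : Arc n m) ∉ Av C Gs) (f : Arc n m → ℝ) :
    ∑ a ∈ Av C (insert g Gs), f a = ∑ a ∈ Av C Gs, f a + f (Sum.inr (g, true)) +
      f (Sum.inr (g, false)) - f (C.inp (g, false)) - f (C.inp (g, true)) := by
  classical
  rw [Av_insert hg hD hin, sum_insert, sum_insert]
  · have h1 : C.inp (g, true) ∈ (Av C Gs).erase (C.inp (g, false)) := by
      rw [mem_erase]
      refine ⟨fun h => ?_, hin true⟩
      have := C.inj h
      simp at this
    have e1 := sum_erase_eq_sub (f := f) h1
    have e2 := sum_erase_eq_sub (f := f) (hin false)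
    rw [e1, e2]
    ring
  · intro h
    exact hout false (mem_of_mem_erase (mem_of_mem_erase h))
  · intro h
    rw [mem_insert] at h
    rcases h with h | h
    · simp at h
    · exact hout true (mem_of_mem_erase (mem_of_mem_erase h))

/-- Energy identity over a cut. -/
theorem energy {C : CompCircuit n m} {e : Arc n m → ℝ} {E : Fin m → ℝ}
    (hout : ∀ a : Fin m × Bool, e (Sum.inr a) = (Sx C e a.1 + sg a.2 * E a.1) / 2)
    {Gs : Finset (Fin m)} (hD : Dn C Gs) :
    ∑ a ∈ Av C Gs, e a ^ 2 = ∑ i : Fin n, e (Sum.inl i) ^ 2 +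
      ∑ g ∈ Gs, (E g ^ 2 - Dx C e g ^ 2) / 2 := by
  classical
  have key : ∀ Gs : Finset (Fin m), Dn C Gs → (Dn C Gs ∧ ∑ a ∈ Av C Gs, e a ^ 2 =
      ∑ i : Fin n, e (Sum.inl i) ^ 2 + ∑ g ∈ Gs, (E g ^ 2 - Dx C e g ^ 2) / 2) := by
    apply Dn.induction
    · refine ⟨by intro g hg; simp at hg, ?_⟩
      have h1 : Av C ∅ = univ.map ⟨Sum.inl, Sum.inl_injective⟩ := by
        ext a
        rw [mem_Av]
        rcases a with i | ⟨h, c⟩ <;> simp
      rw [h1, sum_map]
      simp
    · rintro Gs g hD hg hin ⟨-, ih⟩ ho
      refine ⟨?_, ?_⟩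
      · intro g' hg' b h c hb
        rw [mem_insert] at hg' ⊢
        right
        rcases hg' with rfl | hg'
        · have := hin b
          rw [mem_Av] at this
          exact this.1 h c hb
        · exact hD g' hg' b h c hb
      · rw [sum_Av_insert hg hD hin ho (fun a => e a ^ 2), ih, sum_insert hg, hout (g, true),
          hout (g, false)]
        simp only [Sx, Dx, sg]
        simp only [if_true, Bool.false_eq_true, if_false]
        ring
  exact (key Gs hD).2

theorem dn_univ (C : CompCircuit n m) : Dn C univ := fun _ _ _ _ _ _ => mem_univ _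

/-- Every arc is available after some predecessor-closed set of gates. -/
theorem exists_dn (C : CompCircuit n m) (a : Arc n m) : ∃ Gs, Dn C Gs ∧ a ∈ Av C Gs := by
  classical
  obtain ⟨ord, hord⟩ := C.acyclic
  rcases a with i | ⟨g0, c0⟩
  · refine ⟨∅, by intro g hg; simp at hg, ?_⟩
    rw [mem_Av]
    simp
  · refine ⟨univ.filter (fun g => ord g ≤ ord g0), ?_, ?_⟩
    · intro g hg b h c hb
      rw [mem_filter] at hg ⊢
      have := hord g b h c hb
      exact ⟨mem_univ _, by omega⟩
    · rw [mem_Av]
      refine ⟨?_, ?_⟩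
      · intro h c hc
        have h1 : (g0, c0) = (h, c) := Sum.inr_injective hc
        have h2 : g0 = h := (Prod.mk.inj h1).1
        rw [mem_filter]
        exact ⟨mem_univ _, by rw [h2]⟩
      · rintro ⟨p1, p2⟩ hp hpe
        rw [mem_filter] at hp
        have h1 := hord p1 p2 g0 c0 hpe
        have h2 := hp.2
        simp only at h2
        omega

/-! ### The drift lemma -/

/-- Maximum principle for sums over subsets of cuts. -/
theorem max_principle {C : CompCircuit n m} {e : Arc n m → ℝ} {E : Fin m → ℝ} {d lam : ℝ}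
    {N : ℕ} (hd : 0 < d) (hlam : 0 ≤ lam) (hN : 1 ≤ N) (σ : Bool)
    (hsrc : ∀ i, e (Sum.inl i) = 0)
    (hout : ∀ g, e (Sum.inr (g, σ)) = (Sx C e g + E g) / 2)
    (hout' : ∀ g, e (Sum.inr (g, !σ)) = (Sx C e g - E g) / 2)
    (hlo : ∀ g, -|Dx C e g| ≤ E g) (hup : ∀ g, E g ≤ H d (Dx C e g)) :
    ∀ Gs, Dn C Gs → (Dn C Gs ∧ ∑ a ∈ Av C Gs, e a ^ 2 ≤ 2 * Gs.card * d ^ 2 ∧
      ∀ B ⊆ Av C Gs, B.card ≤ N → ∑ a ∈ B, e a ≤
        Fb (Real.sqrt (2 * m / N) * d) lam d N B.card + Gs.card * (5 * d * Real.exp (-lam))) := by
  classical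
  set α := Real.sqrt (2 * m / N) * d with hα
  have hα0 : 0 ≤ α := by positivity
  apply Dn.induction
  · refine ⟨by intro g hg; simp at hg, ?_, ?_⟩
    · have h1 : ∀ a ∈ Av C ∅, e a ^ 2 = 0 := by
        intro a ha
        rw [mem_Av] at ha
        rcases a with i | ⟨h, c⟩
        · rw [hsrc]; norm_num
        · have := ha.1 h c rfl
          simp at this
      rw [sum_eq_zero h1]
      simp
    · intro B hB hBN
      have h1 : ∑ a ∈ B, e a = 0 := by
        apply sum_eq_zero
        intro a ha
        have ha' := hB ha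
        rw [mem_Av] at ha'
        rcases a with i | ⟨h, c⟩
        · exact hsrc i
        · have := ha'.1 h c rfl
          simp at this
      rw [h1]
      have := Fb_nonneg (N := N) (k := B.card) hα0 hlam hd.le hBN
      simpa using this
  · rintro Gs g hD hg hin ⟨-, ihE, ihB⟩ ho
    have hDn : Dn C (insert g Gs) := by
      intro g' hg' b h c hb
      rw [mem_insert] at hg' ⊢
      right
      rcases hg' with rfl | hg'
      · have := hin b
        rw [mem_Av] at this
        exact this.1 h c hb
      · exact hD g' hg' b h c hb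
    have hab : C.inp (g, false) ≠ C.inp (g, true) := by
      intro h
      have := C.inj h
      simp at this
    set a := C.inp (g, false) with ha
    set b := C.inp (g, true) with hb
    have haA : a ∈ Av C Gs := hin false
    have hbA : b ∈ Av C Gs := hin true
    have hSx : Sx C e g = e a + e b := rfl
    have hDx : Dx C e g = e a - e b := rfl
    have hEn : ∑ a ∈ Av C (insert g Gs), e a ^ 2 ≤ 2 * (insert g Gs).card * d ^ 2 := by
      rw [sum_Av_insert hg hD hin ho (fun a => e a ^ 2), card_insert_of_notMem hg]
      have h1 := hout g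
      have h2 := hout' g
      have h3 : e (Sum.inr (g, true)) ^ 2 + e (Sum.inr (g, false)) ^ 2 =
          ((Sx C e g) ^ 2 + (E g) ^ 2) / 2 := by
        cases σ
        · simp only [Bool.not_false] at h2
          rw [h1, h2]; ring
        · simp only [Bool.not_true] at h2
          rw [h1, h2]; ring
      have h4 : E g ^ 2 ≤ H d (Dx C e g) ^ 2 := by
        apply sq_le_sq'
        · have := H_ge hd.le (Dx C e g)
          have := hlo g
          linarith
        · exact hup g
      have h5 := H_sq_le hd (Dx C e g)
      have h6 : e a ^ 2 + e b ^ 2 = ((Sx C e g) ^ 2 + (Dx C e g) ^ 2) / 2 := by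
        rw [hSx, hDx]; ring
      push_cast
      nlinarith
    refine ⟨hDn, hEn, ?_⟩
    intro B hB hBN
    set ε := 5 * d * Real.exp (-lam) with hε
    have hε0 : 0 ≤ ε := by positivity
    rw [card_insert_of_notMem hg]
    push_cast
    -- full size: energy
    rcases eq_or_lt_of_le hBN with hBN' | hBN'
    · have h1 : (∑ a ∈ B, e a) ^ 2 ≤ B.card * ∑ a ∈ B, e a ^ 2 := sq_sum_le_card_mul_sum_sq
      have h2 : ∑ a ∈ B, e a ^ 2 ≤ ∑ a ∈ Av C (insert g Gs), e a ^ 2 :=
        sum_le_sum_of_subset_of_nonneg hB (fun _ _ _ => sq_nonneg _)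
      have h3 : ((insert g Gs).card : ℝ) ≤ m := by
        have := card_le_univ (insert g Gs)
        rw [Fintype.card_fin] at this
        exact_mod_cast this
      have hNpos : (0 : ℝ) < N := by exact_mod_cast hN
      have h4 : (∑ a ∈ B, e a) ^ 2 ≤ N * (2 * m * d ^ 2) := by
        rw [hBN'] at h1
        refine le_trans h1 ?_
        apply mul_le_mul_of_nonneg_left _ hNpos.le
        refine le_trans (le_trans h2 hEn) ?_
        have : 0 ≤ d ^ 2 := sq_nonneg d
        nlinarith
      have h5 : N * (2 * m * d ^ 2) = (N * α) ^ 2 := by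
        rw [hα, mul_pow, mul_pow, Real.sq_sqrt (by positivity)]
        field_simp
      rw [h5] at h4
      have h6 : ∑ a ∈ B, e a ≤ N * α := abs_le_of_sq_le_sq' h4 (by positivity) |>.2
      have h7 : Fb α lam d N B.card = N * α := by
        rw [hBN', Fb]; ring
      rw [h7]
      have : 0 ≤ ((Gs.card : ℝ) + 1) * ε := by positivity
      linarith
    · -- smaller sets
      set M : Arc n m := Sum.inr (g, σ) with hM
      set W : Arc n m := Sum.inr (g, !σ) with hW
      have hMW : M ≠ W := by
        rw [hM, hW]
        cases σ <;> simp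
      have hMo : M ∉ Av C Gs := ho σ
      have hWo : W ∉ Av C Gs := ho (!σ)
      have hBA : ∀ x ∈ B, x ≠ M → x ≠ W → x ∈ Av C Gs ∧ x ≠ a ∧ x ≠ b := by
        intro x hx hxM hxW
        have h1 := hB hx
        rw [Av_insert hg hD hin, mem_insert, mem_insert, mem_erase, mem_erase] at h1
        have hxM' : x ≠ Sum.inr (g, true) ∧ x ≠ Sum.inr (g, false) := by
          cases σ
          · exact ⟨by simpa [hW] using hxW, by simpa [hM] using hxM⟩
          · exact ⟨by simpa [hM] using hxM, by simpa [hW] using hxW⟩
        rcases h1 with h1 | h1 | h1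
        · exact absurd h1 hxM'.1
        · exact absurd h1 hxM'.2
        · exact ⟨h1.2.2, h1.2.1, h1.1⟩
      have heM : e M = (e a + e b + E g) / 2 := by rw [hM, hout g, hSx]
      have heW : e W = (e a + e b - E g) / 2 := by rw [hW, hout' g, hSx]
      by_cases hMB : M ∈ B
      · by_cases hWB : W ∈ B
        · -- both
          set R := (B.erase M).erase W with hR
          have hRA : R ⊆ Av C Gs := by
            intro x hx
            rw [hR, mem_erase, mem_erase] at hx
            exact (hBA x hx.2.2 hx.2.1 hx.1).1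
          have haR : a ∉ R := by
            intro hx
            rw [hR, mem_erase, mem_erase] at hx
            exact (hBA a hx.2.2 hx.2.1 hx.1).2.1 rfl
          have hbR : b ∉ R := by
            intro hx
            rw [hR, mem_erase, mem_erase] at hx
            exact (hBA b hx.2.2 hx.2.1 hx.1).2.2 rfl
          have hW' : W ∈ B.erase M := by
            rw [mem_erase]; exact ⟨hMW.symm, hWB⟩
          have hc1 : R.card + 1 = (B.erase M).card := card_erase_add_one hW'
          have hc2 : (B.erase M).card + 1 = B.card := card_erase_add_one hMB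
          have hs1 : ∑ x ∈ R, e x = ∑ x ∈ B, e x - e M - e W := by
            rw [hR, sum_erase_eq_sub hW', sum_erase_eq_sub hMB]
          have hbR' : b ∉ insert a R := by
            rw [mem_insert]
            rintro (h | h)
            · exact hab h.symm
            · exact hbR h
          have h1 := ihB (insert b (insert a R)) (by
            intro x hx
            rw [mem_insert, mem_insert] at hx
            rcases hx with rfl | rfl | hx
            · exact hbA
            · exact haA
            · exact hRA hx) (by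
              rw [card_insert_of_notMem hbR', card_insert_of_notMem haR]; omega)
          rw [sum_insert hbR', sum_insert haR, card_insert_of_notMem hbR',
            card_insert_of_notMem haR, hc1, hc2, hs1] at h1
          rw [heM, heW] at h1
          linarith
        · -- only the output with `+ E`
          set R := B.erase M with hR
          have hRm : ∀ x ∈ R, x ∈ Av C Gs ∧ x ≠ a ∧ x ≠ b := by
            intro x hx
            rw [hR, mem_erase] at hx
            exact hBA x hx.2 hx.1 (fun h => hWB (h ▸ hx.2))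
          have hc2 : R.card + 1 = B.card := card_erase_add_one hMB
          have hs1 : ∑ x ∈ R, e x = ∑ x ∈ B, e x - e M := by
            rw [hR, sum_erase_eq_sub hMB]
          have h1 := step_sum (f := e) (c := Gs.card * ε) hd hab haA hbA ihB
            (fun x hx => (hRm x hx).1) (fun h => (hRm a h).2.1 rfl) (fun h => (hRm b h).2.2 rfl)
            (by omega) (w := e M) (by
              rw [heM]
              have := hup g
              rw [hDx] at this
              linarith)
          rw [hc2, hs1] at h1
          linarith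
      · by_cases hWB : W ∈ B
        · -- only the output with `- E`
          set R := B.erase W with hR
          have hRm : ∀ x ∈ R, x ∈ Av C Gs ∧ x ≠ a ∧ x ≠ b := by
            intro x hx
            rw [hR, mem_erase] at hx
            exact hBA x hx.2 (fun h => hMB (h ▸ hx.2)) hx.1
          have hc2 : R.card + 1 = B.card := card_erase_add_one hWB
          have hs1 : ∑ x ∈ R, e x = ∑ x ∈ B, e x - e W := by
            rw [hR, sum_erase_eq_sub hWB]
          have hlo' := hlo g
          rw [hDx] at hlo'
          have key : ∀ p ∈ Av C Gs, p ∉ R → e W ≤ e p →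
              ∑ x ∈ B, e x ≤ Fb α lam d N B.card + ((Gs.card : ℝ) + 1) * ε := by
            intro p hp hpR hle
            have h1 := ihB (insert p R) (by
              intro x hx
              rw [mem_insert] at hx
              rcases hx with rfl | hx
              · exact hp
              · exact (hRm x hx).1) (by rw [card_insert_of_notMem hpR]; omega)
            rw [sum_insert hpR, card_insert_of_notMem hpR, hc2, hs1] at h1
            linarith
          rcases le_total (e b) (e a) with h | h
          · refine key a haA (fun h => (hRm a h).2.1 rfl) ?_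
            rw [abs_of_nonneg (by linarith)] at hlo'
            rw [heW]
            linarith
          · refine key b hbA (fun h => (hRm b h).2.2 rfl) ?_
            rw [abs_of_nonpos (by linarith)] at hlo'
            rw [heW]
            linarith
        · -- none
          have h1 := ihB B (by
            intro x hx
            exact (hBA x hx (fun h => hMB (h ▸ hx)) (fun h => hWB (h ▸ hx))).1) hBN
          linarith

theorem drift_upper {C : CompCircuit n m} {e : Arc n m → ℝ} {E : Fin m → ℝ} {d lam : ℝ}
    {N : ℕ} (hd : 0 < d) (hlam : 0 ≤ lam) (hN : 1 ≤ N) (σ : Bool)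
    (hsrc : ∀ i, e (Sum.inl i) = 0)
    (hout : ∀ g, e (Sum.inr (g, σ)) = (Sx C e g + E g) / 2)
    (hout' : ∀ g, e (Sum.inr (g, !σ)) = (Sx C e g - E g) / 2)
    (hlo : ∀ g, -|Dx C e g| ≤ E g) (hup : ∀ g, E g ≤ H d (Dx C e g)) (a : Arc n m) :
    e a ≤ d * (Real.sqrt (2 * m / N) + lam * N / 2 + 5 * m * Real.exp (-lam)) := by
  classical
  obtain ⟨Gs, hD, ha⟩ := exists_dn C a
  have h1 := (max_principle hd hlam hN σ hsrc hout hout' hlo hup Gs hD).2.2 {a}
    (by intro x hx; rw [mem_singleton] at hx; rw [hx]; exact ha) (by simpa using hN)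
  rw [sum_singleton, card_singleton] at h1
  have h2 : (Gs.card : ℝ) ≤ m := by
    have := card_le_univ Gs
    rw [Fintype.card_fin] at this
    exact_mod_cast this
  have h3 : 0 ≤ 5 * d * Real.exp (-lam) := by positivity
  have h4 : Fb (Real.sqrt (2 * m / N) * d) lam d N 1 ≤
      Real.sqrt (2 * m / N) * d + lam * d / 2 * N := by
    rw [Fb]
    have : 0 ≤ lam * d / 2 := by positivity
    push_cast
    nlinarith
  nlinarith

/-- Drift lemma. -/
theorem drift {C : CompCircuit n m} {e : Arc n m → ℝ} {E : Fin m → ℝ} {d lam : ℝ}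
    {N : ℕ} (hd : 0 < d) (hlam : 0 ≤ lam) (hN : 1 ≤ N)
    (hsrc : ∀ i, e (Sum.inl i) = 0)
    (hout : ∀ a : Fin m × Bool, e (Sum.inr a) = (Sx C e a.1 + sg a.2 * E a.1) / 2)
    (hlo : ∀ g, -|Dx C e g| ≤ E g) (hup : ∀ g, E g ≤ H d (Dx C e g)) (a : Arc n m) :
    |e a| ≤ d * (Real.sqrt (2 * m / N) + lam * N / 2 + 5 * m * Real.exp (-lam)) := by
  rw [abs_le]
  constructor
  · have hS : ∀ g, Sx C (fun a => -e a) g = -Sx C e g := fun g => by simp only [Sx]; ring
    have hDD : ∀ g, Dx C (fun a => -e a) g = -Dx C e g := fun g => by simp only [Dx]; ring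
    have h1 := drift_upper (C := C) (e := fun a => -e a) (E := E) (N := N) hd hlam hN false
      (fun i => by simp [hsrc i])
      (fun g => by
        simp only [hS]
        rw [hout (g, false)]
        simp only [sg, Bool.false_eq_true, if_false]
        ring)
      (fun g => by
        simp only [hS, Bool.not_false]
        rw [hout (g, true)]
        simp only [sg, if_true]
        ring)
      (fun g => by rw [hDD, abs_neg]; exact hlo g)
      (fun g => by
        rw [hDD]
        have : H d (-Dx C e g) = H d (Dx C e g) := by simp only [H, abs_neg]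
        rw [this]
        exact hup g) a
    linarith
  · exact drift_upper hd hlam hN true hsrc
      (fun g => by rw [hout (g, true)]; simp only [sg, if_true]; ring)
      (fun g => by
        simp only [Bool.not_true]
        rw [hout (g, false)]; simp only [sg, Bool.false_eq_true, if_false]; ring) hlo hup a

end Pool.Agent.LibCC67
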