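import Pool.Agent.LibCC67.Drift

/-!
The smooth absolute value of a softmax comparator.
-/

namespace Pool.Agent.LibCC67

open Real

/-- Slope of `H p` at `y`. -/
noncomputable def T (p y : ℝ) : ℝ := Real.tanh (y / (2 * p))

theorem log_two_cosh (x : ℝ) :
    Real.log (2 * Real.cosh x) = |x| + Real.log (1 + Real.exp (-(2 * |x|))) := by
  have h1 : 2 * Real.cosh x = Real.exp |x| * (1 + Real.exp (-(2 * |x|))) := by
    rw [← Real.cosh_abs, Real.cosh_eq, mul_add, mul_one, ← Real.exp_add]
    have : |x| + -(2 * |x|) = -|x| := by ring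
    rw [this]
    ring
  rw [h1, Real.log_mul (Real.exp_pos _).ne' (by positivity), Real.log_exp]

theorem H_eq {p : ℝ} (hp : 0 < p) (y : ℝ) :
    H p y = 2 * p * Real.log (2 * Real.cosh (y / (2 * p))) := by
  rw [log_two_cosh, H]
  have h1 : |y / (2 * p)| = |y| / (2 * p) := by rw [abs_div, abs_of_pos (by positivity : 0 < 2 * p)]
  rw [h1]
  have h2 : 2 * (|y| / (2 * p)) = |y| / p := by field_simp
  rw [h2]
  field_simp

theorem H_zero_left (y : ℝ) : H 0 y = |y| := by simp [H]

theorem H_neg (p y : ℝ) : H p (-y) = H p y := by simp only [H, abs_neg]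

theorem H_zero_right (p : ℝ) : H p 0 = 2 * p * Real.log 2 := by
  simp only [H, abs_zero, zero_div, neg_zero, Real.exp_zero, zero_add]
  norm_num

theorem H_scale {p : ℝ} (hp : 0 < p) (y : ℝ) : H p y = p * H 1 (y / p) := by
  simp only [H, abs_div, abs_of_pos hp, div_one]
  field_simp

theorem hasDerivAt_H {p : ℝ} (hp : 0 < p) (y : ℝ) : HasDerivAt (H p) (T p y) y := by
  have h0 : H p = fun y => 2 * p * Real.log (2 * Real.cosh (y / (2 * p))) :=
    funext (fun y => H_eq hp y)
  rw [h0]
  have h1 : HasDerivAt (fun y : ℝ => y / (2 * p)) (1 / (2 * p)) y := (hasDerivAt_id y).div_const _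
  have h2 := ((h1.cosh.const_mul 2).log (by
    have := Real.cosh_pos (y / (2 * p))
    positivity)).const_mul (2 * p)
  refine h2.congr_deriv ?_
  change _ = Real.tanh (y / (2 * p))
  rw [Real.tanh_eq_sinh_div_cosh]
  have := Real.cosh_pos (y / (2 * p))
  field_simp

theorem abs_tanh_le (x : ℝ) : |Real.tanh x| ≤ 1 := by
  rw [abs_le]
  exact ⟨(Real.neg_one_lt_tanh x).le, (Real.tanh_lt_one x).le⟩

theorem abs_T_le (p y : ℝ) : |T p y| ≤ 1 := abs_tanh_le _

/-- `H p` is 1-Lipschitz. -/
theorem H_lip {p : ℝ} (hp : 0 ≤ p) (y y' : ℝ) : |H p y' - H p y| ≤ |y' - y| := by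
  rcases hp.eq_or_lt with rfl | hp
  · rw [H_zero_left, H_zero_left]
    exact abs_abs_sub_abs_le_abs_sub y' y
  · have h := Convex.norm_image_sub_le_of_norm_hasDerivWithin_le (f := H p) (f' := T p)
      (s := Set.univ) (C := 1) (fun x _ => (hasDerivAt_H hp x).hasDerivWithinAt)
      (fun x _ => by rw [Real.norm_eq_abs]; exact abs_T_le p x) convex_univ
      (Set.mem_univ y) (Set.mem_univ y')
    simpa [Real.norm_eq_abs] using h

/-- `H p y` grows with `p`. -/
theorem H_mono {p p' : ℝ} (hp : 0 ≤ p) (hpp : p ≤ p') (y : ℝ) : H p y ≤ H p' y := by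
  rcases hp.eq_or_lt with rfl | hp0
  · rw [H_zero_left]
    exact H_ge hpp y
  · have h1 : Real.exp (-(|y| / p)) ≤ Real.exp (-(|y| / p')) := by
      apply Real.exp_le_exp.mpr
      have : |y| / p' ≤ |y| / p := div_le_div_of_nonneg_left (abs_nonneg y) hp0 hpp
      linarith
    have h2 : Real.log (1 + Real.exp (-(|y| / p))) ≤ Real.log (1 + Real.exp (-(|y| / p'))) :=
      Real.log_le_log (by positivity) (by linarith)
    have h3 : 0 ≤ Real.log (1 + Real.exp (-(|y| / p))) :=
      Real.log_nonneg (by have := Real.exp_pos (-(|y| / p)); linarith)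
    simp only [H]
    have h4 : p * Real.log (1 + Real.exp (-(|y| / p))) ≤
        p' * Real.log (1 + Real.exp (-(|y| / p'))) :=
      mul_le_mul hpp h2 h3 (by linarith)
    linarith

theorem tanh_sub (x y : ℝ) :
    Real.tanh y - Real.tanh x = Real.sinh (y - x) / (Real.cosh y * Real.cosh x) := by
  rw [Real.tanh_eq_sinh_div_cosh, Real.tanh_eq_sinh_div_cosh, Real.sinh_sub]
  have := Real.cosh_pos x
  have := Real.cosh_pos y
  field_simp

theorem tanh_mono : Monotone Real.tanh := by
  intro x y hxy
  have h1 := tanh_sub x y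
  have h2 : 0 ≤ Real.sinh (y - x) := by
    rw [Real.sinh_nonneg_iff]
    linarith
  have h3 : 0 ≤ Real.sinh (y - x) / (Real.cosh y * Real.cosh x) := by
    have := Real.cosh_pos x
    have := Real.cosh_pos y
    positivity
  linarith

theorem convexOn_H {p : ℝ} (hp : 0 < p) : ConvexOn ℝ Set.univ (H p) := by
  apply MonotoneOn.convexOn_of_deriv convex_univ
  · exact (Differentiable.continuous (fun x => (hasDerivAt_H hp x).differentiableAt)).continuousOn
  · exact fun x _ => (hasDerivAt_H hp x).differentiableAt.differentiableWithinAt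
  · intro x _ y _ hxy
    rw [(hasDerivAt_H hp x).deriv, (hasDerivAt_H hp y).deriv]
    exact tanh_mono (by gcongr)

/-- Perspective convexity: subadditivity in temperature and argument. -/
theorem H_add_le {p d : ℝ} (hp : 0 ≤ p) (hd : 0 < d) (y h : ℝ) :
    H (p + d) (y + h) ≤ H p y + H d h := by
  rcases hp.eq_or_lt with rfl | hp0
  · rw [H_zero_left, zero_add]
    have h1 := H_lip hd.le h (y + h)
    have h2 : y + h - h = y := by ring
    rw [h2] at h1
    have h3 := le_abs_self (H d (y + h) - H d h)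
    linarith
  · have hs : 0 < p + d := by linarith
    have h1 := (convexOn_H one_pos).2 (Set.mem_univ (y / p)) (Set.mem_univ (h / d))
      (show (0 : ℝ) ≤ p / (p + d) by positivity) (show (0 : ℝ) ≤ d / (p + d) by positivity)
      (by field_simp)
    simp only [smul_eq_mul] at h1
    have h2 : p / (p + d) * (y / p) + d / (p + d) * (h / d) = (y + h) / (p + d) := by
      field_simp
    rw [h2] at h1
    rw [H_scale hs, H_scale hp0, H_scale hd]
    calc (p + d) * H 1 ((y + h) / (p + d))
        ≤ (p + d) * (p / (p + d) * H 1 (y / p) + d / (p + d) * H 1 (h / d)) :=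
          mul_le_mul_of_nonneg_left h1 hs.le
      _ = p * H 1 (y / p) + d * H 1 (h / d) := by field_simp

/-- Sandwich for the change of the output difference between temperatures `p` and `p + d`. -/
theorem H_sandwich {p d : ℝ} (hp : 0 ≤ p) (hd : 0 < d) (y y' : ℝ) :
    -|y' - y| ≤ H (p + d) y' - H p y ∧ H (p + d) y' - H p y ≤ H d (y' - y) := by
  constructor
  · have h1 := H_mono hp (by linarith : p ≤ p + d) y'
    have h2 := H_lip hp y y'
    have h3 := neg_abs_le (H p y' - H p y)
    linarith
  · have h1 := H_add_le hp hd y (y' - y)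
    have h2 : y + (y' - y) = y' := by ring
    rw [h2] at h1
    linarith

theorem one_sub_T_sq {p : ℝ} (y : ℝ) : 1 - T p y ^ 2 = 1 / Real.cosh (y / (2 * p)) ^ 2 := by
  rw [T, Real.tanh_eq_sinh_div_cosh]
  have h := Real.cosh_pos (y / (2 * p))
  have h2 := Real.cosh_sq (y / (2 * p))
  field_simp
  linarith

theorem cosh_le_exp_mul (x z : ℝ) : Real.cosh (x + z) ≤ Real.exp |z| * Real.cosh x := by
  rw [Real.cosh_eq, Real.cosh_eq]
  have h1 : Real.exp (x + z) ≤ Real.exp |z| * Real.exp x := by
    rw [← Real.exp_add]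
    apply Real.exp_le_exp.mpr
    have := le_abs_self z
    linarith
  have h2 : Real.exp (-(x + z)) ≤ Real.exp |z| * Real.exp (-x) := by
    rw [← Real.exp_add]
    apply Real.exp_le_exp.mpr
    have := neg_abs_le z
    linarith
  linarith

theorem abs_sinh_mul_exp_le {z : ℝ} (hz : |z| ≤ 3 / 20) : |Real.sinh z| * Real.exp |z| ≤ 1 / 5 := by
  rw [Real.abs_sinh, Real.sinh_eq]
  have h1 : (Real.exp |z| - Real.exp (-|z|)) / 2 * Real.exp |z| = (Real.exp (2 * |z|) - 1) / 2 := by
    have h2 : Real.exp |z| * Real.exp |z| = Real.exp (2 * |z|) := by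
      rw [← Real.exp_add]; ring_nf
    have h3 : Real.exp (-|z|) * Real.exp |z| = 1 := by
      rw [← Real.exp_add]; simp
    linear_combination h2 / 2 - h3 / 2
  rw [h1]
  have h2 : Real.exp (2 * |z|) ≤ 1.4 := by
    have h3 : Real.exp (2 * |z|) ≤ Real.exp (3 / 10) := Real.exp_le_exp.mpr (by linarith)
    have h4 : Real.exp (3 / 10) ≤ 1.4 := by
      have := Real.exp_bound' (x := 3 / 10) (n := 3) (by norm_num) (by norm_num) (by norm_num)
      refine le_trans this ?_
      norm_num [Finset.sum_range_succ, Nat.factorial]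
    linarith
  linarith

/-- Slopes change little inside the window. -/
theorem T_window {p y z : ℝ} (hp : 0 < p) (hz : |z - y| ≤ 3 / 10 * p) :
    |T p z - T p y| ≤ 1 / 5 * (1 - T p y ^ 2) := by
  set u := y / (2 * p) with hu
  set w := z / (2 * p) with hw
  have hwu : |w - u| ≤ 3 / 20 := by
    have : w - u = (z - y) / (2 * p) := by rw [hw, hu]; ring
    rw [this, abs_div, abs_of_pos (by positivity : 0 < 2 * p), div_le_iff₀ (by positivity)]
    linarith
  rw [one_sub_T_sq, ← hu]
  have h1 : T p z - T p y = Real.sinh (w - u) / (Real.cosh w * Real.cosh u) := tanh_sub u w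
  have hcu := Real.cosh_pos u
  have hcw := Real.cosh_pos w
  rw [h1, abs_div, abs_of_pos (by positivity : 0 < Real.cosh w * Real.cosh u),
    div_le_iff₀ (by positivity)]
  have h2 : Real.cosh u ≤ Real.exp |w - u| * Real.cosh w := by
    have := cosh_le_exp_mul w (u - w)
    rw [add_sub_cancel, abs_sub_comm] at this
    exact this
  have h3 := abs_sinh_mul_exp_le hwu
  have h4 : 1 / 5 * (1 / Real.cosh u ^ 2) * (Real.cosh w * Real.cosh u) =
      1 / 5 * Real.cosh w / Real.cosh u := by
    field_simp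
  rw [h4, le_div_iff₀ hcu]
  calc |Real.sinh (w - u)| * Real.cosh u
      ≤ |Real.sinh (w - u)| * (Real.exp |w - u| * Real.cosh w) :=
        mul_le_mul_of_nonneg_left h2 (abs_nonneg _)
    _ = |Real.sinh (w - u)| * Real.exp |w - u| * Real.cosh w := by ring
    _ ≤ 1 / 5 * Real.cosh w := mul_le_mul_of_nonneg_right h3 hcw.le

/-- The tangent correction is a contraction with factor `(1 - c²) / 5` inside the window. -/
theorem H_window {p y z z' : ℝ} (hp : 0 < p) (hz : |z - y| ≤ 3 / 10 * p)
    (hz' : |z' - y| ≤ 3 / 10 * p) :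
    |(H p z' - T p y * z') - (H p z - T p y * z)| ≤ 1 / 5 * (1 - T p y ^ 2) * |z' - z| := by
  have h := Convex.norm_image_sub_le_of_norm_hasDerivWithin_le
    (f := fun x => H p x - T p y * x) (f' := fun x => T p x - T p y)
    (s := Metric.closedBall y (3 / 10 * p)) (C := 1 / 5 * (1 - T p y ^ 2)) (x := z) (y := z')
    (fun x _ => ((hasDerivAt_H hp x).sub (by
      simpa using (hasDerivAt_id x).const_mul (T p y))).hasDerivWithinAt)
    (fun x hx => by
      rw [Metric.mem_closedBall, Real.dist_eq] at hx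
      rw [Real.norm_eq_abs]
      exact T_window hp hx) (convex_closedBall y _)
    (by rw [Metric.mem_closedBall, Real.dist_eq]; exact hz)
    (by rw [Metric.mem_closedBall, Real.dist_eq]; exact hz')
  simpa [Real.norm_eq_abs] using h

end Pool.Agent.LibCC67
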